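import Mathlib

set_option autoImplicit false

namespace Pool.Agent.Results.MP_a52033_al.CharTwo

section Defs
variable {F A : Type} [Field F] [AddCommGroup A] [Module F A] (m : A →ₗ[F] A →ₗ[F] A)

/-- `(xy)y = x(yy)` -/
def RightAlternative : Prop := ∀ x y : A, m (m x y) y = m x (m y y)

/-- `(xx)y = x(xy)` and `(xy)y = x(yy)` -/
def Alternative : Prop := (∀ x y : A, m (m x x) y = m x (m x y)) ∧ ∀ x y : A, m (m x y) y = m x (m y y)

/-- the commutator `[x,y] = xy - yx` -/
def br (x y : A) : A := m x y - m y x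

/-- the commutator algebra is a Malcev algebra -/
def MalcevAdmissible : Prop :=
  (∀ x : A, br m x x = 0) ∧ ∀ x y z : A,
    br m (br m x y) (br m x z) =
      br m (br m (br m x y) z) x + br m (br m (br m y z) x) x + br m (br m (br m z x) x) y

/-- `A² ≠ 0` and the only two-sided ideals are `0` and `A` -/
def Simple : Prop :=
  (∃ x y : A, m x y ≠ 0) ∧
    ∀ I : Submodule F A, (∀ a ∈ I, ∀ b : A, m a b ∈ I ∧ m b a ∈ I) → I = ⊥ ∨ I = ⊤

end Defs

/-- `e₀e₀ = e₂, e₀e₁ = e₀, e₀e₂ = e₂e₀ = e₁, e₁e₁ = e₁`, other products zero -/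
def mm (F : Type) [Field F] : (Fin 3 → F) →ₗ[F] (Fin 3 → F) →ₗ[F] (Fin 3 → F) :=
  LinearMap.mk₂ F (fun x y => ![x 0 * y 1, x 0 * y 2 + x 2 * y 0 + x 1 * y 1, x 0 * y 0])
    (fun a b c => by ext i; fin_cases i <;> simp <;> ring)
    (fun r a b => by ext i; fin_cases i <;> simp <;> ring)
    (fun a b c => by ext i; fin_cases i <;> simp <;> ring)
    (fun r a b => by ext i; fin_cases i <;> simp <;> ring)

lemma mm_apply (F : Type) [Field F] (x y : Fin 3 → F) :
    mm F x y = ![x 0 * y 1, x 0 * y 2 + x 2 * y 0 + x 1 * y 1, x 0 * y 0] := rfl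

theorem result : ∀ (F : Type) [Field F] [CharP F 2],
    ∃ (A : Type) (_ : AddCommGroup A) (_ : Module F A) (m : A →ₗ[F] A →ₗ[F] A),
      Module.finrank F A = 3 ∧
      Simple m ∧ RightAlternative m ∧ ¬ Alternative m ∧ MalcevAdmissible m := by
  intro F _ _
  have h2 : (2 : F) = 0 := CharP.ofNat_eq_zero F 2
  refine ⟨Fin 3 → F, inferInstance, inferInstance, mm F, by simp, ⟨⟨![1, 0, 0], ![1, 0, 0], ?_⟩, ?_⟩, ?_, ?_, ?_, ?_⟩
  · intro h
    have := congrFun h 2
    simp [mm_apply] at this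
  · intro I hI
    by_cases h0 : I = ⊥
    · exact Or.inl h0
    right
    obtain ⟨v, hv, hv0⟩ := Submodule.exists_mem_ne_zero_of_ne_bot h0
    have k1 : (![0, 1, 0] : Fin 3 → F) ∈ I → I = ⊤ := by
      intro h
      rw [eq_top_iff]
      intro w _
      have a0 := (hI _ h ![1, 0, 0]).2
      have a2 := (hI _ a0 ![1, 0, 0]).1
      have e : w = w 0 • mm F ![1, 0, 0] ![0, 1, 0] + w 1 • ![0, 1, 0] +
          w 2 • mm F (mm F ![1, 0, 0] ![0, 1, 0]) ![1, 0, 0] := by
        ext i; fin_cases i <;> simp [mm_apply]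
      rw [e]
      exact I.add_mem (I.add_mem (I.smul_mem _ a0) (I.smul_mem _ h)) (I.smul_mem _ a2)
    have k2 : ∀ c : F, c ≠ 0 → (![0, c, 0] : Fin 3 → F) ∈ I → I = ⊤ := by
      intro c hc h
      apply k1
      have e : (![0, 1, 0] : Fin 3 → F) = c⁻¹ • ![0, c, 0] := by
        ext i; fin_cases i <;> simp [hc]
      rw [e]
      exact I.smul_mem _ h
    by_cases c1 : v 1 = 0
    · by_cases c0 : v 0 = 0
      · have c2 : v 2 ≠ 0 := by
          intro c2; apply hv0; ext i; fin_cases i <;> simp [c0, c1, c2]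
        apply k2 _ c2
        have := (hI _ hv ![1, 0, 0]).1
        simpa [mm_apply, c0, c1] using this
      · apply k2 _ c0
        have := (hI _ hv ![0, 0, 1]).1
        simpa [mm_apply, c1] using this
    · apply k2 _ c1
      have := (hI _ hv ![0, 1, 0]).2
      simpa [mm_apply] using this
  · intro x y
    ext i; fin_cases i
    · simp [mm_apply]
      linear_combination (-(x 0 * y 0 * y 2)) * h2
    · simp [mm_apply]
      linear_combination (x 0 * y 1 * y 2 - y 2 * y 0 * x 1) * h2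
    · simp [mm_apply]
      ring
  · rintro ⟨h, -⟩
    have := congrFun (h ![1, 0, 0] ![0, 1, 0]) 2
    simp [mm_apply] at this
  · intro x; simp [br]
  · intro x y z
    ext i; fin_cases i <;> simp [br, mm_apply] <;> ring

end Pool.Agent.Results.MP_a52033_al.CharTwo
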